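import Pool.Agent.H57.MP.Fin
import Pool.Agent.H57.D2.Low

/-!
# H77-KM-UPM: the bounds for Sylow subgroups of class at most three over every `K` with enough roots of unity

The same theorems as `H77.PC3.cma`, `H57.D2.cml`, but the condition `K ≥ K₀` is replaced by roots of unity in `K` and, for the lower bound, the existence
of a surjective homomorphism of finite type to `G / S`.
-/

set_option autoImplicit false

open scoped NumberField
open IsDedekindDomain H38.ML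
open scoped Classical

noncomputable section

namespace H77.KM

open H63.MA H38.BB H38.BG H77.AB H57.PC H57.BRA H77.GN H77.UX H77.PC3 H57.MP H57.D2

/-- roots of unity -/
def Rts (G : Type) [Group G] (p : ℕ) (K : Type) [Field K] : Prop :=
  (∃ z : K, IsPrimitiveRoot z (Nat.card G)) ∧ (∃ i : K, i ^ 2 = -1) ∧ Z2 p K

theorem ft_one {K : Type} [Field K] {Ω : Type} [Field Ω] [Algebra K Ω] {H : Type} [Group H] :
    FT (1 : Gal(Ω/K) →* H) := ⟨⊥, inferInstance, fun _ _ => rfl⟩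

theorem cmam {n : ℕ} (hn : 2 ≤ n) (G : Subgroup (Equiv.Perm (Fin n)))
    (hG : MulAction.IsPretransitive G (Fin n)) (hnil : Group.IsNilpotent G) {p : ℕ} [NeZero p]
    (hp : p.Prime) (hFS : FBdAll p)
    (hI : ∀ h : G, h ≠ 1 → ind (h : Equiv.Perm (Fin n)) = indG G → h ^ p = 1)
    (S : Sylow p G)
    (hS : Subgroup.closure {h : G | h ≠ 1 ∧ ind (h : Equiv.Perm (Fin n)) = indG G} =
      (S : Subgroup G))
    (h4 : ⁅⁅⁅(S : Subgroup G), (S : Subgroup G)⁆, (S : Subgroup G)⁆, (S : Subgroup G)⁆ = ⊥)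
    (K : IntermediateField ℚ QBar) (hKf : NumberField K) (hR : Rts G p K) :
    ∃ C B₀ : ℝ, 0 < C ∧ ∀ B : ℝ, B₀ ≤ B → ∃ k : ℕ,
      Spec.nK K QBar G B = (k : ℕ∞) ∧
      (k : ℝ) ≤ C * B ^ (1 / (indG G : ℝ)) *
        Real.log B ^ (Spec.betaAll K QBar G - 1) := by
  obtain ⟨ha, ⟨g₀, hg₀, hg₀'⟩, hmin, hcj, hJ⟩ := pidx_pos hn G hG
  obtain ⟨N, g, hgΛ, uni, hI'⟩ := ncl G {h : G | h ≠ 1 ∧ ind (h : Equiv.Perm (Fin n)) = indG G}
    (fun h hh => hh.1) (by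
      rintro h ⟨h1, h2⟩ k hk
      refine ⟨?_, ?_⟩
      · intro hk1
        rw [hk1] at hk
        exact h1 (isConj_one_left.1 hk)
      · obtain ⟨x, rfl⟩ := isConj_iff.1 hk
        exact hcj h x h1 h2)
  have hN : 1 ≤ N := by
    obtain ⟨i, -⟩ := (hI' g₀).1 ⟨hg₀, hg₀'⟩
    have := i.2
    omega
  have hcardpos : 0 < Nat.card G := Nat.card_pos
  have hpd : p ∣ Nat.card G := by
    have h2 := hI g₀ hg₀ hg₀'
    have h3 : orderOf g₀ = p := orderOf_eq_prime h2 hg₀ (hp := ⟨hp⟩)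
    rw [← h3]
    exact orderOf_dvd_natCard g₀
  have hSn := nil_normal hnil hp S
  have hset : {h : G | h ≠ 1 ∧ ind (h : Equiv.Perm (Fin n)) = indG G} =
      {x | ∃ i, IsConj x (g i)} := by
    ext x
    exact hI' x
  obtain ⟨m, l, w, Q, hQ⟩ := exists_gq hp hnil hpd S g
    (fun i => hI _ (hgΛ i).1 (hgΛ i).2) (fun i => (hgΛ i).1) uni (by rw [← hset]; exact hS) h4
  obtain ⟨⟨z, hz⟩, ⟨i, hi⟩, hz2⟩ := hR
  have hp2 : H63.MA.MOne p K := by
    by_cases h2 : p = 2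
    · exact ⟨i, by rw [h2]; exact hi⟩
    · exact H63.MA.mone_odd hp h2 K
  obtain ⟨r, hr⟩ := hpd
  have hζ : IsPrimitiveRoot (z ^ r) p := hz.pow hcardpos (by rw [hr]; ring)
  obtain ⟨D, hD, hun⟩ := ard (Ω := QBar) hp hp2 hζ (1 : Gal(QBar/K) →* G) ft_one (Nat.card G)
    hcardpos
  obtain ⟨L⟩ := exists_LDs QBar hp hζ D.toRD0
  obtain ⟨Fr⟩ := H77.PC3.exists_FR hp hζ L
  rw [lbet G K z hz g uni hI']
  refine afu hn G hG K D.toRD0 L N ?_
  exact cgu hp hζ D.toRD0 L hnil Q Fr (hFS K QBar (z ^ r) hζ hp2 hz2 D L Fr m l w N S (S ⧸ G3 S)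
    Q.Dg hN)
    z hz hD (indG G) ha
    (fun H => n - orbs (H.map G.subtype))
    (fun H hH => by
      have := hJ H hH
      omega)
    (fun g hg h => by
      rw [hQ]
      refine (hI' g).1 ⟨hg, le_antisymm ?_ (hmin g hg)⟩
      have h1 : (Subgroup.zpowers g).map G.subtype =
          Subgroup.zpowers (g : Equiv.Perm (Fin n)) := by
        rw [MonoidHom.map_zpowers]
        rfl
      rw [h1] at h
      exact h)

theorem cmlm {n : ℕ} (hn : 2 ≤ n) (G : Subgroup (Equiv.Perm (Fin n)))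
    (hG : MulAction.IsPretransitive G (Fin n)) (hnil : Group.IsNilpotent G) {p : ℕ} [NeZero p]
    (hp : p.Prime) (hLB : H57.D2.LBdAll p)
    (hI : ∀ h : G, h ≠ 1 → ind (h : Equiv.Perm (Fin n)) = indG G → h ^ p = 1)
    (S : Sylow p G) (hSn : (S : Subgroup G).Normal)
    (hS : Subgroup.closure {h : G | h ≠ 1 ∧ ind (h : Equiv.Perm (Fin n)) = indG G} =
      (S : Subgroup G))
    (h4 : ⁅⁅⁅(S : Subgroup G), (S : Subgroup G)⁆, (S : Subgroup G)⁆, (S : Subgroup G)⁆ = ⊥)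
    (hE : p = 2 → ∀ x ∈ ⁅(S : Subgroup G), (S : Subgroup G)⁆, x ^ 2 = 1)
    (K : IntermediateField ℚ QBar) (hKf : NumberField K) (hR : Rts G p K)
    (χ : Gal(QBar/K) →* (G ⧸ (S : Subgroup G))) (hχ : FT χ) (hχs : Function.Surjective χ) :
    ∃ c B₀ : ℝ, 0 < c ∧ ∀ B : ℝ, B₀ ≤ B →
      ((⌈c * B ^ (1 / (indG G : ℝ)) *
        Real.log B ^ (Spec.betaAll K QBar G - 1)⌉₊ : ℕ) : ℕ∞) ≤ Spec.nK K QBar G B := by
  obtain ⟨ha, ⟨g₀, hg₀, hg₀'⟩, hmin, hcj, hJ⟩ := pidx_pos hn G hG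
  obtain ⟨N, g, hgΛ, uni, hI'⟩ := ncl G {h : G | h ≠ 1 ∧ ind (h : Equiv.Perm (Fin n)) = indG G}
    (fun h hh => hh.1) (by
      rintro h ⟨h1, h2⟩ k hk
      refine ⟨?_, ?_⟩
      · intro hk1
        rw [hk1] at hk
        exact h1 (isConj_one_left.1 hk)
      · obtain ⟨x, rfl⟩ := isConj_iff.1 hk
        exact hcj h x h1 h2)
  have hN : 1 ≤ N := by
    obtain ⟨i, -⟩ := (hI' g₀).1 ⟨hg₀, hg₀'⟩
    have := i.2
    omega
  have hcardpos : 0 < Nat.card G := Nat.card_pos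
  have hpd : p ∣ Nat.card G := by
    have h2 := hI g₀ hg₀ hg₀'
    have h3 : orderOf g₀ = p := orderOf_eq_prime h2 hg₀ (hp := ⟨hp⟩)
    rw [← h3]
    exact orderOf_dvd_natCard g₀
  have hfp : Fact p.Prime := ⟨hp⟩
  have hset : {h : G | h ≠ 1 ∧ ind (h : Equiv.Perm (Fin n)) = indG G} =
      {x | ∃ i, IsConj x (g i)} := by
    ext x
    exact hI' x
  obtain ⟨m, l, w, Q, hQ⟩ := exists_gq hp hnil hpd S g
    (fun i => hI _ (hgΛ i).1 (hgΛ i).2) (fun i => (hgΛ i).1) uni (by rw [← hset]; exact hS) h4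
  have hco : Nat.Coprime (Nat.card S) (Nat.card (G ⧸ (S : Subgroup G))) := by
    have h5 := S.not_dvd_index
    rw [Subgroup.index] at h5
    obtain ⟨k, hk⟩ := IsPGroup.iff_card.mp S.isPGroup'
    rw [hk]
    exact Nat.Coprime.pow_left k ((Nat.Prime.coprime_iff_not_dvd hp).2 h5)
  obtain ⟨⟨z, hz⟩, ⟨i, hi⟩, hz2⟩ := hR
  have hp2 : H63.MA.MOne p K := by
    by_cases h2 : p = 2
    · exact ⟨i, by rw [h2]; exact hi⟩
    · exact H63.MA.mone_odd hp h2 K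
  obtain ⟨r, hr⟩ := hpd
  have hζ : IsPrimitiveRoot (z ^ r) p := hz.pow hcardpos (by rw [hr]; ring)
  obtain ⟨D, hD, hun⟩ := ard (Ω := QBar) hp hp2 hζ χ hχ (Nat.card G) hcardpos
  obtain ⟨L⟩ := exists_LDs QBar hp hζ D.toRD0
  obtain ⟨Fr⟩ := H77.PC3.exists_FR hp hζ L
  rw [lbet G K z hz g uni hI']
  refine cfl hn G hG ha K D.toRD0 L g
    (fun h i hi => by
      have h1 : h ∈ {h : G | h ≠ 1 ∧ ind (h : Equiv.Perm (Fin n)) = indG G} := (hI' h).2 ⟨i, hi⟩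
      exact h1.2) ?_
  have h6 := clo L Q hco χ hχ hχs (hun L)
    (hLB K QBar (z ^ r) hζ hp2 hz2 D L Fr m l w N S (S ⧸ G3 S) Q.Dg
      (g2e_syl hp S Q.Dg hE) hN)
  rw [hQ] at h6
  exact h6

end H77.KM
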