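import Pool.Agent.H77.PLF.Fix
import Pool.Agent.H77.KM.Upm

/-!
# H77-KM-ASX: the asymptotic formula for Sylow subgroups of exponent `p` over every `K` with enough roots of unity, from `PLv p`
-/

set_option autoImplicit false

open scoped NumberField
open IsDedekindDomain Filter Topology H38.ML
open scoped Classical

noncomputable section

namespace H77.KM

open H63.MA H38.BB H38.BG H57.PC H57.BRA H63.BU H77.PC3 H57.CC H38.AS H77.S0T H77.AB H77.GN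
  H77.UX H77.FLD H77.PLF

section main

variable {n : ℕ} (G : Subgroup (Equiv.Perm (Fin n))) (K : IntermediateField ℚ QBar)
  [NumberField K]

theorem fin_loxm (hn : 2 ≤ n) (hG : MulAction.IsPretransitive G (Fin n)) {p : ℕ} [NeZero p]
    (hp : p.Prime) (h2 : p ≠ 2) {ζ : K} (hζ : IsPrimitiveRoot ζ p) {M : ℕ} {z₂ : K}
    (hz2 : IsPrimitiveRoot z₂ (p ^ M)) {N : ℕ} {P H : Type} [Group P] [Group H]
    (Q : GX p N G P H) (hco : Nat.Coprime (Nat.card P) (Nat.card H)) (hPo : PPos p M Q.cP)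
    (hI : ∀ h : G, (h ≠ 1 ∧ ind (h : Equiv.Perm (Fin n)) = indG G) ↔
      ∃ i, IsConj h (Q.cl.g i))
    (χ : Gal(QBar/K) →* H) (hχs : Function.Surjective χ) (hχ : FT χ) :
    ∃ c B₀ : ℝ, 0 < c ∧ ∀ B : ℝ, B₀ ≤ B →
      ((⌈c * B ^ (1 / (indG G : ℝ)) * Real.log B ^ (N - 1)⌉₊ : ℕ) : ℕ∞) ≤
        Spec.nK K QBar G B := by
  have hp2 : MOne p K := mone_odd hp h2 K
  obtain ⟨ha, -, -, -, -⟩ := pidx_pos hn G hG
  obtain ⟨D, hD, hun⟩ := ard (Ω := QBar) hp hp2 hζ χ hχ (Nat.card G) Nat.card_pos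
  obtain ⟨L⟩ := exists_LDs QBar hp hζ D.toRD0
  refine cfl hn G hG ha K D.toRD0 L Q.cl.g (fun h i hi => ((hI h).2 ⟨i, hi⟩).2) ?_
  exact clox L Q hco χ hχ hχs (hun L) (hPo K ζ hζ z₂ hz2 D L)

end main

/-- the asymptotic formula for Sylow subgroups of exponent `p`, `p` odd -/
theorem fin_asymx (n : ℕ) (hn : 2 ≤ n) (G : Subgroup (Equiv.Perm (Fin n)))
    (hG : MulAction.IsPretransitive G (Fin n)) (hnil : Group.IsNilpotent G) (p : ℕ)
    (hp : p.Prime) (h2 : p ≠ 2) (hPL : PLv p) (S : Sylow p G)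
    (hS : Subgroup.closure {h : G | h ≠ 1 ∧
      Spec.ind (h : Equiv.Perm (Fin n)) = Spec.indG G} = (S : Subgroup G))
    (hexp : ∀ x ∈ (S : Subgroup G), x ^ p = 1) [hSn : (S : Subgroup G).Normal] :
    ∃ M : ℕ, ∀ (K : IntermediateField ℚ QBar) (_ : NumberField K)
      (_ : ∃ z : K, IsPrimitiveRoot z (Nat.card G)) (_ : ∃ z : K, IsPrimitiveRoot z (p ^ M))
      (χ : Gal(QBar/K) →* (G ⧸ (S : Subgroup G))) (_ : FT χ) (_ : Function.Surjective χ),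
        ∃ C : ℝ, 0 < C ∧ ∃ k : ℝ → ℕ, (∀ B : ℝ, Spec.nK K QBar G B = (k B : ℕ∞)) ∧
          Tendsto (fun B : ℝ => (k B : ℝ) / (B ^ (1 / (Spec.indG G : ℝ)) *
            Real.log B ^ (Spec.betaAll K QBar G - 1))) atTop (𝓝 C) := by
  have : NeZero p := ⟨hp.ne_zero⟩
  have : Fact p.Prime := ⟨hp⟩
  have hI : ∀ h : G, h ≠ 1 → ind (h : Equiv.Perm (Fin n)) = indG G → h ^ p = 1 := by
    intro h h0 hh
    refine hexp h ?_
    rw [← hS]
    exact Subgroup.subset_closure ⟨h0, hh⟩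
  obtain ⟨ha, ⟨g₀, hg₀, hg₀'⟩, hmin, hcj, hJ⟩ := pidx_pos hn G hG
  have hmn := all_min hn G hG hnil hp hI S hS
  obtain ⟨N, g, hgΛ, uni, hI'⟩ := ncl G {h : G | h ≠ 1 ∧ ind (h : Equiv.Perm (Fin n)) = indG G}
    (fun h hh => hh.1) (by
      rintro h ⟨h1, h2⟩ k hk
      refine ⟨?_, ?_⟩
      · intro hk1
        rw [hk1] at hk
        exact h1 (isConj_one_left.1 hk)
      · obtain ⟨x, rfl⟩ := isConj_iff.1 hk
        exact hcj h x h1 h2)
  have hcardpos : 0 < Nat.card G := Nat.card_pos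
  have hg₀S : g₀ ∈ (S : Subgroup G) := by
    rw [← hS]
    exact Subgroup.subset_closure ⟨hg₀, hg₀'⟩
  have hpd : p ∣ Nat.card G := by
    have h2 := hI g₀ hg₀ hg₀'
    have h3 : orderOf g₀ = p := orderOf_eq_prime h2 hg₀ (hp := ⟨hp⟩)
    rw [← h3]
    exact orderOf_dvd_natCard g₀
  have hset : {h : G | h ≠ 1 ∧ ind (h : Equiv.Perm (Fin n)) = indG G} =
      {x | ∃ i, IsConj x (g i)} := by
    ext x
    exact hI' x
  obtain ⟨Q, hQ, hcomp⟩ := exists_gx hp hnil hpd S g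
    (fun i => hI _ (hgΛ i).1 (hgΛ i).2) (fun i => (hgΛ i).1) uni (by rw [← hset]; exact hS)
    (fun x hx h1 => (hI' x).1 ⟨h1, hmn x h1 (hexp x hx)⟩)
  have hIQ : ∀ h : G, (h ≠ 1 ∧ ind (h : Equiv.Perm (Fin n)) = indG G) ↔
      ∃ i, IsConj h (Q.cl.g i) := by
    intro h
    rw [hQ]
    exact hI' h
  have hP : IsPGroup p S := S.isPGroup'
  have hco : Nat.Coprime (Nat.card S) (Nat.card (G ⧸ (S : Subgroup G))) := by
    have h5 := S.not_dvd_index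
    rw [Subgroup.index] at h5
    obtain ⟨k, hk⟩ := IsPGroup.iff_card.mp S.isPGroup'
    rw [hk]
    exact Nat.Coprime.pow_left k ((Nat.Prime.coprime_iff_not_dvd hp).2 h5)
  have : Nontrivial S := ⟨⟨⟨g₀, hg₀S⟩, 1, fun h => hg₀ (congrArg Subtype.val h)⟩⟩
  obtain ⟨M, hM, hPLS⟩ := hPL S (fun x => Subtype.ext (hexp x x.2)) inferInstance
  obtain ⟨hLm, hU, hPo⟩ := hPLS N Q.cP hcomp
  obtain ⟨c₀, hc₀, hnk⟩ := nk2 G hG
  have i₀ : Fin n := ⟨0, by omega⟩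
  refine ⟨M, fun K hKf hz' hz2' χ hχ hχs => ?_⟩
  obtain ⟨z, hz⟩ := hz'
  obtain ⟨z₂, hz2⟩ := hz2'
  obtain ⟨r, hr⟩ := hpd
  have hζ : IsPrimitiveRoot (z ^ r) p := hz.pow hcardpos (by rw [hr]; ring)
  obtain ⟨c₁, B₀, hc₁, hlo⟩ := fin_loxm G K hn hG hp h2 hζ hz2 Q hco hPo hIQ χ hχs hχ
  obtain ⟨hfin, c, hcl⟩ := fin_limx G K hn hG hnil hp h2 hζ hz2 Q hP hU hLm hIQ z hz i₀
  have hβ := lbet G K z hz g uni hI'
  have hk : ∀ B : ℝ, ∃ k : ℕ, Spec.nK K QBar G B = (k : ℕ∞) ∧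
      k * c₀ = (CfinS G K i₀ B).ncard := fun B => hnk K hKf i₀ B (hfin B)
  choose k hk1 hk2 using hk
  have hc₀R : (0 : ℝ) < (c₀ : ℝ) := by exact_mod_cast hc₀
  have hlim : Tendsto (fun B : ℝ => (k B : ℝ) /
        (B ^ (1 / (Spec.indG G : ℝ)) * Real.log B ^ (Spec.betaAll K QBar G - 1)))
        atTop (𝓝 (c / (c₀ : ℝ))) := by
    refine (hcl.div_const (c₀ : ℝ)).congr fun B => ?_
    rw [← hk2 B, hβ]
    push_cast
    have : H38.ML.indG G = Spec.indG G := rfl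
    rw [this]
    field_simp
  refine ⟨c / (c₀ : ℝ), ?_, k, hk1, hlim⟩
  refine lt_of_lt_of_le hc₁ (ge_of_tendsto hlim ?_)
  filter_upwards [eventually_ge_atTop B₀, eventually_gt_atTop 1] with B hB hB1
  have h1 := hlo B hB
  rw [show Spec.nK K QBar G B = (k B : ℕ∞) from hk1 B] at h1
  have h2 : (⌈c₁ * B ^ (1 / (indG G : ℝ)) * Real.log B ^ (N - 1)⌉₊ : ℕ) ≤ k B := by
    exact_mod_cast h1
  have h3 : c₁ * B ^ (1 / (indG G : ℝ)) * Real.log B ^ (N - 1) ≤ (k B : ℝ) :=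
    (Nat.le_ceil _).trans (by exact_mod_cast h2)
  rw [hβ]
  have hP : 0 < B ^ (1 / (Spec.indG G : ℝ)) * Real.log B ^ (N - 1) :=
    mul_pos (Real.rpow_pos_of_pos (by linarith) _) (pow_pos (Real.log_pos hB1) _)
  rw [le_div_iff₀ hP, ← mul_assoc]
  exact h3

end H77.KM
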