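import Pool.Agent.H77.KM.Asm
import Pool.Agent.H77.KM.Asx
import Pool.Agent.H38.ML.Spec

/-!
# H77 KM ANY: the final statement of stage 1 over every `K` which contains the roots of unity of order `m = m(G)`, from `PLv p`
-/

open H38.ML.Spec

namespace H77.KM

private theorem quo_triv {G : Type} [Group G] [Finite G] {p : ℕ} (hp : p.Prime) (S : Sylow p G)
    [(S : Subgroup G).Normal] (hG : IsPGroup p G) :
    Function.Surjective (1 : G →* (G ⧸ (S : Subgroup G))) := by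
  haveI : Fact p.Prime := ⟨hp⟩
  have h1 : (S : Subgroup G).index = 1 := by
    have h2 := S.not_dvd_index
    obtain ⟨k, hk⟩ := IsPGroup.iff_card.mp hG
    have h3 : (S : Subgroup G).index ∣ p ^ k := by
      rw [← hk]
      exact Subgroup.index_dvd_card _
    obtain ⟨j, -, hj⟩ := (Nat.dvd_prime_pow hp).1 h3
    rcases Nat.eq_zero_or_pos j with h4 | h4
    · rw [hj, h4, pow_zero]
    · exact absurd (by rw [hj]; exact dvd_pow_self p h4.ne') h2
  have h5 : (S : Subgroup G) = ⊤ := Subgroup.index_eq_one.1 h1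
  intro x
  refine ⟨1, ?_⟩
  obtain ⟨g, rfl⟩ := QuotientGroup.mk'_surjective (S : Subgroup G) x
  rw [map_one]
  symm
  rw [QuotientGroup.mk'_apply, QuotientGroup.eq_one_iff, h5]
  trivial

theorem any_class (n : ℕ) (hn : 2 ≤ n) (G : Subgroup (Equiv.Perm (Fin n)))
    (hG : MulAction.IsPretransitive G (Fin n)) (hnil : Group.IsNilpotent G) (p : ℕ)
    (hp : p.Prime) (hPL : p ≠ 2 → H77.PLF.PLv p) (S : Sylow p G)
    (hS : Subgroup.closure {h : G | h ≠ 1 ∧ ind (h : Equiv.Perm (Fin n)) = indG G} =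
      (S : Subgroup G)) :
    ∃ m : ℕ, 0 < m ∧ ∃ K₀ : IntermediateField ℚ (AlgebraicClosure ℚ), NumberField K₀ ∧
      ∀ K : IntermediateField ℚ (AlgebraicClosure ℚ), ∀ _ : NumberField K,
      (∃ z : K, IsPrimitiveRoot z m) →
        ((IsPGroup p G ∨ K₀ ≤ K ∨ IsGaloisGroup K (AlgebraicClosure ℚ) G) →
          (p ≠ 2 ∧ ∀ x ∈ (S : Subgroup G), x ^ p = 1) ∨
          (⁅⁅⁅(S : Subgroup G), (S : Subgroup G)⁆, (S : Subgroup G)⁆, (S : Subgroup G)⁆ = ⊥ ∧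
            (p = 2 → ∀ x ∈ ⁅(S : Subgroup G), (S : Subgroup G)⁆, x ^ 2 = 1)) →
          (∀ B : ℝ, nK K (AlgebraicClosure ℚ) G B ≠ ⊤) ∧
          ∃ C : ℝ, 0 < C ∧ Filter.Tendsto
            (fun B : ℝ => ((nK K (AlgebraicClosure ℚ) G B).toNat : ℝ) /
              (B ^ (1 / (indG G : ℝ)) * Real.log B ^ (betaAll K (AlgebraicClosure ℚ) G - 1)))
            Filter.atTop (nhds C)) ∧
        (⁅⁅⁅(S : Subgroup G), (S : Subgroup G)⁆, (S : Subgroup G)⁆, (S : Subgroup G)⁆ = ⊥ →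
          ∃ C : ℝ, 0 < C ∧ ∃ B₀ : ℝ, ∀ B : ℝ, B₀ ≤ B →
          nK K (AlgebraicClosure ℚ) G B ≤
            ((⌊C * B ^ (1 / (indG G : ℝ)) *
              Real.log B ^ (betaAll K (AlgebraicClosure ℚ) G - 1)⌋₊ : ℕ) : ℕ∞)) := by
  haveI : NeZero p := ⟨hp.ne_zero⟩
  haveI : Fact p.Prime := ⟨hp⟩
  have hSn := H77.UX.nil_normal hnil hp S
  -- the form of the asymptotic formula
  have key : ∀ (K : IntermediateField ℚ (AlgebraicClosure ℚ)), ∀ _ : NumberField K,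
      (∃ C : ℝ, 0 < C ∧ ∃ k : ℝ → ℕ, (∀ B : ℝ, nK K (AlgebraicClosure ℚ) G B = (k B : ℕ∞)) ∧
        Filter.Tendsto (fun B : ℝ => (k B : ℝ) / (B ^ (1 / (indG G : ℝ)) *
          Real.log B ^ (betaAll K (AlgebraicClosure ℚ) G - 1))) Filter.atTop (nhds C)) →
      (∀ B : ℝ, nK K (AlgebraicClosure ℚ) G B ≠ ⊤) ∧
          ∃ C : ℝ, 0 < C ∧ Filter.Tendsto
            (fun B : ℝ => ((nK K (AlgebraicClosure ℚ) G B).toNat : ℝ) /
              (B ^ (1 / (indG G : ℝ)) * Real.log B ^ (betaAll K (AlgebraicClosure ℚ) G - 1)))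
            Filter.atTop (nhds C) := by
    rintro K hK ⟨C, hC, k, hk, hl⟩
    refine ⟨fun B => ?_, C, hC, ?_⟩
    · rw [hk B]
      exact ENat.natCast_ne_top _
    · refine hl.congr fun B => ?_
      rw [hk B, ENat.toNat_natCast]
  -- exponent `p`
  obtain ⟨M, hM⟩ : ∃ M : ℕ, (p ≠ 2 ∧ ∀ x ∈ (S : Subgroup G), x ^ p = 1) →
      ∀ (K : IntermediateField ℚ H38.ML.QBar) (_ : NumberField K)
      (_ : ∃ z : K, IsPrimitiveRoot z (Nat.card G)) (_ : ∃ z : K, IsPrimitiveRoot z (p ^ M))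
      (χ : Gal(H38.ML.QBar/K) →* (G ⧸ (S : Subgroup G))) (_ : H38.ML.FT χ)
      (_ : Function.Surjective χ),
        ∃ C : ℝ, 0 < C ∧ ∃ k : ℝ → ℕ, (∀ B : ℝ, nK K H38.ML.QBar G B = (k B : ℕ∞)) ∧
          Filter.Tendsto (fun B : ℝ => (k B : ℝ) / (B ^ (1 / (indG G : ℝ)) *
            Real.log B ^ (betaAll K H38.ML.QBar G - 1))) Filter.atTop (nhds C) := by
    by_cases h : p ≠ 2 ∧ ∀ x ∈ (S : Subgroup G), x ^ p = 1
    · obtain ⟨M, hM⟩ := fin_asymx n hn G hG hnil p hp h.1 (hPL h.1) S hS h.2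
      exact ⟨M, fun _ => hM⟩
    · exact ⟨0, fun h' => absurd h' h⟩
  obtain ⟨K₀, hK₀, h0⟩ := H38.BG.akn G
  have hcard : 0 < Nat.card G := Nat.card_pos
  refine ⟨4 * Nat.card G * p ^ (M + 2), by have := hp.pos; positivity, K₀, hK₀,
    fun K hK hz => ?_⟩
  obtain ⟨z, hz⟩ := hz
  have hm : 0 < 4 * Nat.card G * p ^ (M + 2) := by have := hp.pos; positivity
  have hz1 : ∃ z : K, IsPrimitiveRoot z (Nat.card G) :=
    ⟨z ^ (4 * p ^ (M + 2)), hz.pow hm (by ring)⟩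
  have hzM : ∃ z : K, IsPrimitiveRoot z (p ^ M) :=
    ⟨z ^ (4 * Nat.card G * p ^ 2), hz.pow hm (by ring)⟩
  have hz2 : ∃ z : K, IsPrimitiveRoot z (p ^ 2) :=
    ⟨z ^ (4 * Nat.card G * p ^ M), hz.pow hm (by ring)⟩
  have hi : ∃ i : K, i ^ 2 = -1 := by
    have h1 : IsPrimitiveRoot (z ^ (2 * Nat.card G * p ^ (M + 2))) 2 := hz.pow hm (by ring)
    have h2 := h1.eq_neg_one_of_two_right
    refine ⟨z ^ (Nat.card G * p ^ (M + 2)), ?_⟩
    rw [← pow_mul, ← h2]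
    congr 1
    ring
  have hR : Rts G p K := ⟨hz1, hi, hz2⟩
  have hI : ∀ h : G, h ≠ 1 → H38.ML.ind (h : Equiv.Perm (Fin n)) = H38.ML.indG G →
      h ^ p = 1 := by
    intro h h0 hh
    have hmem : h ∈ (S : Subgroup G) := by
      rw [← hS]
      exact Subgroup.subset_closure ⟨h0, hh⟩
    obtain ⟨k, hk⟩ := S.isPGroup' ⟨h, hmem⟩
    refine H57.MP.ord_min G hp h hh k ?_
    have := congrArg Subtype.val hk
    simpa using this
  refine ⟨fun hG' hc => key K hK ?_, fun h4 => ?_⟩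
  · obtain ⟨χ, hχ, hχs⟩ : ∃ χ : Gal(H38.ML.QBar/K) →* (G ⧸ (S : Subgroup G)), H38.ML.FT χ ∧
        Function.Surjective χ := by
      have hρ : (∃ ρ : Gal(H38.ML.QBar/K) →* G, Function.Surjective ρ ∧ H38.ML.FT ρ) →
          ∃ χ : Gal(H38.ML.QBar/K) →* (G ⧸ (S : Subgroup G)), H38.ML.FT χ ∧
          Function.Surjective χ := by
        rintro ⟨ρ, hρ, hft⟩
        refine ⟨(QuotientGroup.mk' (S : Subgroup G)).comp ρ, ?_,
          (QuotientGroup.mk'_surjective _).comp hρ⟩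
        obtain ⟨E, hE, hEk⟩ := hft
        refine ⟨E, hE, fun σ hσ => ?_⟩
        have h1 : ρ σ = 1 := hEk hσ
        change QuotientGroup.mk' (S : Subgroup G) (ρ σ) = 1
        rw [h1, map_one]
      rcases hG' with h | h | h
      · refine ⟨1, ft_one, fun x => ⟨1, ?_⟩⟩
        obtain ⟨y, hy⟩ := quo_triv hp S h x
        rw [← hy]
        rfl
      · exact hρ (h0 K h hK).1
      · obtain ⟨ρ, h1, h2⟩ := h
        exact hρ ⟨ρ, h1, h2⟩
    rcases hc with hc | hc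
    · exact hM hc K hK hz1 hzM χ hχ hχs
    · exact fin_asym3 n hn G hG hnil p hp S hS hc.1 hc.2 K hK hR χ hχ hχs
  · obtain ⟨C, B₀, hC, hB⟩ := cmam hn G hG hnil hp (H57.MP.fbdAll p hp) hI S hS h4 K hK hR
    refine ⟨C, hC, B₀, fun B hB' => ?_⟩
    obtain ⟨k, hk, hle⟩ := hB B hB'
    rw [show nK K (AlgebraicClosure ℚ) G B = (k : ℕ∞) from hk]
    exact Nat.cast_le.2 (Nat.le_floor hle)

end H77.KM
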