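import Pool.Agent.H57.D2.Fld
import Pool.Agent.H77.KM.Upm

/-!
# H77-KM-ASM: the asymptotic formula for Sylow subgroups of class at most three over every `K` with enough roots of unity
-/

set_option autoImplicit false

open scoped NumberField
open IsDedekindDomain Filter Topology H38.ML
open scoped Classical

noncomputable section

namespace H77.KM

open H77.FLD H63.MA H38.BB H38.BG H57.PC H57.BRA H63.BU H77.PC3 H57.CC H38.AS H77.S0T H77.AB H77.GN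
  H57.D2

/-- the asymptotic formula for Sylow subgroups of class at most three; for `p = 2` the commutator subgroup has exponent `2` -/
theorem fin_asym3 (n : ℕ) (hn : 2 ≤ n) (G : Subgroup (Equiv.Perm (Fin n)))
    (hG : MulAction.IsPretransitive G (Fin n)) (hnil : Group.IsNilpotent G) (p : ℕ)
    (hp : p.Prime) (S : Sylow p G)
    (hS : Subgroup.closure {h : G | h ≠ 1 ∧
      Spec.ind (h : Equiv.Perm (Fin n)) = Spec.indG G} = (S : Subgroup G))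
    (h4 : ⁅⁅⁅(S : Subgroup G), (S : Subgroup G)⁆, (S : Subgroup G)⁆, (S : Subgroup G)⁆ = ⊥)
    (hE : p = 2 → ∀ x ∈ ⁅(S : Subgroup G), (S : Subgroup G)⁆, x ^ 2 = 1)
    [hSn : (S : Subgroup G).Normal] (K : IntermediateField ℚ QBar) (hKf : NumberField K)
    (hR : Rts G p K) (χ : Gal(QBar/K) →* (G ⧸ (S : Subgroup G))) (hχ : FT χ)
    (hχs : Function.Surjective χ) :
    ∃ C : ℝ, 0 < C ∧ ∃ k : ℝ → ℕ, (∀ B : ℝ, Spec.nK K QBar G B = (k B : ℕ∞)) ∧
      Tendsto (fun B : ℝ => (k B : ℝ) / (B ^ (1 / (Spec.indG G : ℝ)) *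
        Real.log B ^ (Spec.betaAll K QBar G - 1))) atTop (𝓝 C) := by
  haveI : NeZero p := ⟨hp.ne_zero⟩
  haveI : Fact p.Prime := ⟨hp⟩
  have hI : ∀ h : G, h ≠ 1 → ind (h : Equiv.Perm (Fin n)) = indG G → h ^ p = 1 := by
    intro h h0 hh
    have hmem : h ∈ (S : Subgroup G) := by
      rw [← hS]
      exact Subgroup.subset_closure ⟨h0, hh⟩
    obtain ⟨k, hk⟩ := S.isPGroup' ⟨h, hmem⟩
    refine H57.MP.ord_min G hp h hh k ?_
    have := congrArg Subtype.val hk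
    simpa using this
  obtain ⟨c₁, B₀, hc₁, hlo⟩ := cmlm hn G hG hnil hp (H57.D2.lbdAll p hp) hI S hSn hS h4 hE K hKf hR
    χ hχ hχs
  obtain ⟨ha, ⟨g₀, hg₀, hg₀'⟩, hmin, hcj, hJ⟩ := pidx_pos hn G hG
  have hmn := all_min hn G hG hnil hp hI S hS
  obtain ⟨N, g, hgΛ, uni, hI'⟩ := ncl G {h : G | h ≠ 1 ∧ ind (h : Equiv.Perm (Fin n)) = indG G}
    (fun h hh => hh.1) (by
      rintro h ⟨h1, h2⟩ k hk
      refine ⟨?_, ?_⟩
      · intro hk1
        rw [hk1] at hk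
        exact h1 (isConj_one_left.1 hk)
      · obtain ⟨x, rfl⟩ := isConj_iff.1 hk
        exact hcj h x h1 h2)
  have hN : 1 ≤ N := by
    obtain ⟨i, -⟩ := (hI' g₀).1 ⟨hg₀, hg₀'⟩
    have := i.2
    omega
  have hcardpos : 0 < Nat.card G := Nat.card_pos
  have hpd : p ∣ Nat.card G := by
    have h2 := hI g₀ hg₀ hg₀'
    have h3 : orderOf g₀ = p := orderOf_eq_prime h2 hg₀ (hp := ⟨hp⟩)
    rw [← h3]
    exact orderOf_dvd_natCard g₀
  have hset : {h : G | h ≠ 1 ∧ ind (h : Equiv.Perm (Fin n)) = indG G} =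
      {x | ∃ i, IsConj x (g i)} := by
    ext x
    exact hI' x
  obtain ⟨m, l, w, Q, hQ⟩ := exists_gq hp hnil hpd S g
    (fun i => hI _ (hgΛ i).1 (hgΛ i).2) (fun i => (hgΛ i).1) uni (by rw [← hset]; exact hS) h4
  have hIQ : ∀ h : G, (h ≠ 1 ∧ ind (h : Equiv.Perm (Fin n)) = indG G) ↔
      ∃ i, IsConj h (Q.cl.g i) := by
    intro h
    rw [hQ]
    exact hI' h
  have hP : IsPGroup p S := S.isPGroup'
  have hW : WTy Q.Dg := wty_of hp Q hP fun h h1 h2 => (hIQ h).1 ⟨h1, hmn h h1 h2⟩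
  obtain ⟨c₀, hc₀, hnk⟩ := nk2 G hG
  have i₀ : Fin n := ⟨0, by omega⟩
  obtain ⟨⟨z, hz⟩, -, hz2⟩ := hR
  obtain ⟨r, hr⟩ := hpd
  have hζ : IsPrimitiveRoot (z ^ r) p := hz.pow hcardpos (by rw [hr]; ring)
  obtain ⟨hfin, c, hcl⟩ := H57.D2.fin_lim3 G K hn hG hnil hp hζ hz2 Q (g2e_syl hp S Q.Dg hE) hP hN hW hIQ z hz i₀
  have hβ := lbet G K z hz g uni hI'
  have hk : ∀ B : ℝ, ∃ k : ℕ, Spec.nK K QBar G B = (k : ℕ∞) ∧
      k * c₀ = (CfinS G K i₀ B).ncard := fun B => hnk K hKf i₀ B (hfin B)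
  choose k hk1 hk2 using hk
  have hc₀R : (0 : ℝ) < (c₀ : ℝ) := by exact_mod_cast hc₀
  have hlim : Tendsto (fun B : ℝ => (k B : ℝ) /
        (B ^ (1 / (Spec.indG G : ℝ)) * Real.log B ^ (Spec.betaAll K QBar G - 1)))
        atTop (𝓝 (c / (c₀ : ℝ))) := by
    refine (hcl.div_const (c₀ : ℝ)).congr fun B => ?_
    rw [← hk2 B, hβ]
    push_cast
    have : H38.ML.indG G = Spec.indG G := rfl
    rw [this]
    field_simp
  refine ⟨c / (c₀ : ℝ), ?_, k, hk1, hlim⟩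
  refine lt_of_lt_of_le hc₁ (ge_of_tendsto hlim ?_)
  filter_upwards [eventually_ge_atTop B₀, eventually_gt_atTop 1] with B hB hB1
  have h1 := hlo B hB
  rw [show Spec.nK K (AlgebraicClosure ℚ) G B = (k B : ℕ∞) from hk1 B] at h1
  have h2 : (⌈c₁ * B ^ (1 / (Spec.indG G : ℝ)) *
      Real.log B ^ (Spec.betaAll K QBar G - 1)⌉₊ : ℕ) ≤ k B := by exact_mod_cast h1
  have h3 : c₁ * B ^ (1 / (Spec.indG G : ℝ)) * Real.log B ^ (Spec.betaAll K QBar G - 1) ≤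
      (k B : ℝ) := (Nat.le_ceil _).trans (by exact_mod_cast h2)
  have hP : 0 < B ^ (1 / (Spec.indG G : ℝ)) * Real.log B ^ (Spec.betaAll K QBar G - 1) :=
    mul_pos (Real.rpow_pos_of_pos (by linarith) _) (pow_pos (Real.log_pos hB1) _)
  rw [le_div_iff₀ hP, ← mul_assoc]
  exact h3

end H77.KM
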